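import Pool.Agent.H.MP_c671ed_lc.A

set_option autoImplicit false

namespace Pool.Agent.Results.MP_c671ed_lc.NotAxiomatizable

open FirstOrder Function

/-- unital reading: subdirect product of division rings -/
def Sub (R : Type) [Ring R] : Prop :=
  ∃ (I : Type) (D : I → Type) (_ : ∀ i, DivisionRing (D i)) (φ : R →+* ∀ i, D i),
    Injective φ ∧ ∀ i, Surjective fun x => φ x i

/-- non-unital reading: subdirect product of division rings -/
def Sub₀ (R : Type) [NonUnitalRing R] : Prop :=
  ∃ (I : Type) (D : I → Type) (_ : ∀ i, DivisionRing (D i)) (φ : R →ₙ+* ∀ i, D i),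
    Injective φ ∧ ∀ i, Surjective fun x => φ x i

/-- function symbols of the language of rings without unit -/
inductive Sym : ℕ → Type
  | add : Sym 2
  | mul : Sym 2
  | neg : Sym 1
  | zero : Sym 0

/-- the language of rings without unit -/
def rng : Language := { Functions := Sym, Relations := fun _ => Empty }

/-- the natural structure on a non-unital ring -/
@[instance_reducible]
def str (R : Type) [NonUnitalRing R] : rng.Structure R where
  funMap := fun {n} f =>
    match n, f with
    | _, .add => fun x => x 0 + x 1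
    | _, .mul => fun x => x 0 * x 1
    | _, .neg => fun x => -x 0
    | _, .zero => fun _ => 0
  RelMap := fun r => r.elim

/-- inclusion of languages -/
def inc : rng →ᴸ Language.ring where
  onFunction := fun {n} f =>
    match n, f with
    | _, .add => Ring.addFunc
    | _, .mul => Ring.mulFunc
    | _, .neg => Ring.negFunc
    | _, .zero => Ring.zeroFunc
  onRelation := fun {_} r => r.elim

lemma sub₀ {R : Type} [Ring R] (h : Sub R) : Sub₀ R := by
  obtain ⟨I, D, i, φ, h⟩ := h
  exact ⟨I, D, i, φ.toNonUnitalRingHom, h⟩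

open Pool.Agent.H.MP_c671ed_lc MvPolynomial Cardinal in
lemma main (T : Language.ring.Theory)
    (h1 : ∀ (R : Type) [Ring R] [Ring.CompatibleRing R], Sub R → R ⊨ T)
    (h2 : ∀ (R : Type) [Ring R] [Ring.CompatibleRing R], R ⊨ T → Sub₀ R) : False := by
  let _ := Ring.compatibleRingOfRing RR
  obtain ⟨S, hS, hc⟩ := Language.exists_elementarySubstructure_card_eq Language.ring
    (Set.range fun z : Fin 4 → Option (Option ℕ) => (⟨X (z 0), X (z 1), X (z 2), X (z 3)⟩ : RR))
    ℵ₀ le_rfl (lift_le.2 (le_aleph0_iff_set_countable.2 (Set.countable_range _))) (by simp) (by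
      have : Infinite RR := Infinite.of_injective _ (QuaternionAlgebra.algebraMap_injective)
      simp)
  let S' : Subring RR :=
    { carrier := S
      mul_mem' := fun {a b} ha hb => S.toSubstructure.fun_mem Ring.mulFunc ![a, b]
        (fun i => by fin_cases i <;> assumption)
      add_mem' := fun {a b} ha hb => S.toSubstructure.fun_mem Ring.addFunc ![a, b]
        (fun i => by fin_cases i <;> assumption)
      neg_mem' := fun {a} ha => S.toSubstructure.fun_mem Ring.negFunc ![a]
        (fun i => by fin_cases i; assumption)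
      one_mem' := S.toSubstructure.fun_mem Ring.oneFunc ![] (fun i => i.elim0)
      zero_mem' := S.toSubstructure.fun_mem Ring.zeroFunc ![] (fun i => i.elim0) }
  have : Countable S' := mk_le_aleph0_iff.1 (lift_le.1 hc.le)
  let c : Ring.CompatibleRing S' :=
    { toStructure := S.inducedStructure
      funMap_add := fun _ => rfl
      funMap_mul := fun _ => rfl
      funMap_neg := fun _ => rfl
      funMap_zero := fun _ => rfl
      funMap_one := fun _ => rfl }
  have h3 := h1 S' ⟨ℕ, is_sub S' fun a b c d => hS ⟨![a, b, c, d], rfl⟩⟩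
  obtain ⟨I, D, _, φ, hi, hs⟩ := h2 RR ((S.theory_model_iff T).1 h3)
  have : φ ⟨0, 0, 0, 1⟩ = φ 0 := by
    funext i
    rw [map_zero]
    exact not_sub ((Pi.evalNonUnitalRingHom D i).comp φ) (hs i)
  exact one_ne_zero (congrArg QuaternionAlgebra.imK (hi this))

theorem result :
    (¬ ∃ T : Language.ring.Theory,
      ∀ (R : Type) [Ring R] [Ring.CompatibleRing R], R ⊨ T ↔ Sub R) ∧
    (¬ ∃ T : rng.Theory,
      ∀ (R : Type) [NonUnitalRing R], @Language.Theory.Model rng R (str R) T ↔ Sub₀ R) := by
  refine ⟨fun ⟨T, h⟩ => main T (fun R _ _ => (h R).2) fun R _ _ h' => sub₀ ((h R).1 h'),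
    fun ⟨T, h⟩ => ?_⟩
  have key : ∀ (R : Type) [Ring R] [Ring.CompatibleRing R], R ⊨ inc.onTheory T ↔ Sub₀ R := by
    intro R _ _
    let _ := str R
    have : inc.IsExpansionOn R := ⟨fun f x => by
      cases f
      exacts [Ring.CompatibleRing.funMap_add x, Ring.CompatibleRing.funMap_mul x,
        Ring.CompatibleRing.funMap_neg x, Ring.CompatibleRing.funMap_zero x], fun r => r.elim⟩
    exact (inc.onTheory_model T).trans (h R)
  exact main _ (fun R _ _ h' => (key R).2 (sub₀ h')) fun R _ _ => (key R).1

end Pool.Agent.Results.MP_c671ed_lc.NotAxiomatizable
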